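import Pool.Agent.helper64.OT.SpecG

set_option autoImplicit false

namespace Pool.Agent.OG

open Finset Pool.Agent.OT Pool.Agent.SPI Pool.Agent.helper85.PG
open scoped Pointwise

theorem WSS_conj {p : ℕ} [NeZero p] (t : ZMod p) : (starRingEnd ℂ) (ps t) = ps (-t) := by
  unfold ps
  rw [AddChar.map_neg_eq_inv, AddChar.inv_apply_eq_conj]

theorem WSS_fib {p : ℕ} [NeZero p] (S : Finset (ZMod p)) (g : ZMod p → ℂ) :
    ∑ r : ZMod p, ((wS S r : ℝ) : ℂ) * g r =
      (∑ z ∈ S ×ˢ S, g (z.1 - z.2)) / ((S.card : ℂ) ^ 2) := by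
  classical
  rw [← Finset.sum_fiberwise (S ×ˢ S) (fun z => z.1 - z.2), Finset.sum_div]
  refine Finset.sum_congr rfl (fun r _ => ?_)
  have h1 : ∑ z ∈ (S ×ˢ S) with z.1 - z.2 = r, g (z.1 - z.2) =
      ∑ z ∈ (S ×ˢ S) with z.1 - z.2 = r, g r := by
    refine Finset.sum_congr rfl (fun z hz => ?_)
    rw [(Finset.mem_filter.1 hz).2]
  rw [h1, Finset.sum_const, nsmul_eq_mul]
  unfold wS
  push_cast
  ring

theorem WSS : WSS_stmt := by
  classical
  intro p _ S hS
  have hc : 0 < S.card := Finset.card_pos.2 hS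
  have hT0 : (0 : ℝ) < (S.card : ℝ) := by exact_mod_cast hc
  have hTC : (S.card : ℂ) ≠ 0 := by exact_mod_cast hc.ne'
  refine ⟨?_, ?_, ?_, ?_⟩
  · intro x
    rw [WSS_fib S (fun r => ps (r * x))]
    unfold psS
    push_cast
    congr 1
    rw [← Complex.mul_conj', map_sum, Finset.sum_mul_sum, Finset.sum_product]
    refine Finset.sum_congr rfl (fun s _ => Finset.sum_congr rfl (fun s' _ => ?_))
    rw [WSS_conj]
    unfold ps
    rw [← AddChar.map_add_eq_mul]
    congr 1
    ring
  · intro r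
    refine ⟨by unfold wS; positivity, ?_⟩
    have h1 : ((S ×ˢ S).filter fun z => z.1 - z.2 = r).card ≤ S.card := by
      refine Finset.card_le_card_of_injOn (fun z => z.1) ?_ ?_
      · intro z hz
        have hz' := (Finset.mem_filter.1 hz).1
        exact (Finset.mem_product.1 hz').1
      · intro z hz z' hz' h
        have hz2 := (Finset.mem_filter.1 hz).2
        have hz2' := (Finset.mem_filter.1 hz').2
        have h3 : z.1 = z'.1 := h
        have h5 : z.1 - z.2 = z.1 - z'.2 := by rw [hz2, h3, hz2']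
        exact Prod.ext h3 (sub_right_injective h5)
    unfold wS
    rw [div_le_div_iff₀ (by positivity) hT0]
    have h2 : (((S ×ˢ S).filter fun z => z.1 - z.2 = r).card : ℝ) ≤ (S.card : ℝ) := by
      exact_mod_cast h1
    nlinarith
  · have h1 := WSS_fib (p := p) S (fun _ => 1)
    have h2 : ((∑ r : ZMod p, wS S r : ℝ) : ℂ) = 1 := by
      push_cast
      have h3 : ∑ r : ZMod p, ((wS S r : ℝ) : ℂ) = ∑ r : ZMod p, ((wS S r : ℝ) : ℂ) * 1 := by
        refine Finset.sum_congr rfl (fun r _ => by ring)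
      rw [h3, h1]
      simp only [Finset.sum_const, Finset.card_product, nsmul_eq_mul, mul_one]
      push_cast
      field_simp
    exact_mod_cast h2
  · intro r hr
    have h2 : ((S ×ˢ S).filter fun z => z.1 - z.2 = r).card ≠ 0 := by
      intro h0
      apply hr
      unfold wS
      rw [h0]
      simp
    obtain ⟨z, hz⟩ := Finset.card_pos.1 (Nat.pos_of_ne_zero h2)
    obtain ⟨hz1, hz2⟩ := Finset.mem_filter.1 hz
    obtain ⟨hz3, hz4⟩ := Finset.mem_product.1 hz1
    rw [← hz2]
    exact Finset.sub_mem_sub hz3 hz4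

end Pool.Agent.OG
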