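import Pool.Agent.helper35.OT.Spec

set_option autoImplicit false

namespace Pool.Agent.helper35.OT

open Finset

theorem D2 (hFE : FE_stmt) : D2_stmt := by
  intro c0 c1 c2 r hR h0 h2 hS
  obtain ⟨-, h⟩ := hFE c0 c1 c2 r 1 hR zero_le_one le_rfl hS
  rw [one_pow, one_mul] at h
  have hy : 0 ≤ SS r 1 := by
    unfold SS
    exact tsum_nonneg fun n => by positivity
  have h0' : (1 : ℝ) ≤ c0 := by exact_mod_cast h0
  have h2' : (1 : ℝ) ≤ c2 := by exact_mod_cast h2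
  have h1' : (0 : ℝ) ≤ c1 * SS r 1 := by positivity
  have h3 : (1 : ℝ) / 2 * (SS r 1 ^ 2 + SS r 1) ≤ c2 / 2 * (SS r 1 ^ 2 + SS r 1) :=
    mul_le_mul_of_nonneg_right (by linarith) (by positivity)
  nlinarith [sq_nonneg (SS r 1 - 1)]

end Pool.Agent.helper35.OT
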