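import Pool.Agent.helper64.OT.SpecD

/-!
# Project OT (MP_f6e9a2_nt), row SPT: the points `jN` are well spaced
-/

set_option autoImplicit false

namespace Pool.Agent.OT

open Finset

private lemma SPT_norm_one {p : ℕ} [Fact p.Prime] (t : ZMod p) : ‖ps t‖ = 1 := by
  unfold ps
  exact AddChar.norm_apply _ _

private lemma SPT_geom {p : ℕ} [Fact p.Prime] (L : ℕ) (x : ZMod p) :
    ‖∑ s ∈ range L, ps ((s : ZMod p) * x)‖ * ‖ps x - 1‖ ≤ 2 := by
  have h1 : ∑ s ∈ range L, ps ((s : ZMod p) * x) = ∑ s ∈ range L, (ps x) ^ s := by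
    refine sum_congr rfl fun s _ => ?_
    unfold ps
    rw [← nsmul_eq_mul, AddChar.map_nsmul_eq_pow]
  rw [h1, ← norm_mul, geom_sum_mul]
  calc ‖ps x ^ L - 1‖ ≤ ‖ps x ^ L‖ + ‖(1 : ℂ)‖ := norm_sub_le _ _
    _ = 2 := by rw [norm_pow, SPT_norm_one, one_pow, norm_one]; norm_num

private lemma SPT_sin {p : ℕ} [Fact p.Prime] (x : ZMod p) :
    4 * |(x.valMinAbs : ℝ)| / p ≤ ‖ps x - 1‖ := by
  have hp0 : (0 : ℝ) < p := by exact_mod_cast (Fact.out : p.Prime).pos
  have h1 : ps x = Complex.exp (Complex.I * ((2 * Real.pi * (x.valMinAbs : ℝ) / p : ℝ) : ℂ)) := by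
    unfold ps
    conv_lhs => rw [← ZMod.coe_valMinAbs x]
    rw [ZMod.stdAddChar_coe]
    congr 1
    push_cast
    ring
  rw [h1, Complex.norm_exp_I_mul_ofReal_sub_one, Real.norm_eq_abs, abs_mul]
  have habs : |(x.valMinAbs : ℝ)| ≤ p / 2 := by
    have h2 := ZMod.natAbs_valMinAbs_le x
    have h3 : ((x.valMinAbs.natAbs : ℕ) : ℝ) = |(x.valMinAbs : ℝ)| := by
      rw [← Int.cast_abs, Int.abs_eq_natAbs]
      rfl
    rw [← h3]
    have h4 : ((x.valMinAbs.natAbs : ℕ) : ℝ) ≤ ((p / 2 : ℕ) : ℝ) := by exact_mod_cast h2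
    exact h4.trans (by exact_mod_cast Nat.cast_div_le)
  have h5 : |2 * Real.pi * (x.valMinAbs : ℝ) / p / 2| = Real.pi * |(x.valMinAbs : ℝ)| / p := by
    have : 2 * Real.pi * (x.valMinAbs : ℝ) / p / 2 = Real.pi * (x.valMinAbs : ℝ) / p := by ring
    rw [this, abs_div, abs_mul, abs_of_pos Real.pi_pos, abs_of_pos hp0]
  have h6 : |2 * Real.pi * (x.valMinAbs : ℝ) / p / 2| ≤ Real.pi / 2 := by
    rw [h5, div_le_iff₀ hp0]
    have := mul_le_mul_of_nonneg_left habs Real.pi_pos.le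
    linarith
  have h7 := Real.mul_abs_le_abs_sin h6
  rw [h5] at h7
  have h8 : 2 / Real.pi * (Real.pi * |(x.valMinAbs : ℝ)| / p) = 2 * |(x.valMinAbs : ℝ)| / p := by
    have := Real.pi_pos.ne'
    field_simp
  rw [h8] at h7
  have h9 : |(2 : ℝ)| = 2 := abs_of_pos two_pos
  rw [h9]
  calc 4 * |(x.valMinAbs : ℝ)| / p = 2 * (2 * |(x.valMinAbs : ℝ)| / p) := by ring
    _ ≤ _ := by linarith

private lemma SPT_psi_le_one {p : ℕ} [Fact p.Prime] (L : ℕ) (x : ZMod p) : psi L x ≤ 1 := by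
  unfold psi
  refine div_le_one_of_le₀ ?_ (by positivity)
  refine pow_le_pow_left₀ (norm_nonneg _) ?_ 2
  refine (norm_sum_le _ _).trans ?_
  have h0 : ∀ s ∈ range L, ‖ps ((s : ZMod p) * x)‖ = 1 := fun s _ => SPT_norm_one _
  rw [sum_congr rfl h0, sum_const, card_range, nsmul_eq_mul, mul_one]

private lemma SPT_psi_nonneg {p : ℕ} [Fact p.Prime] (L : ℕ) (x : ZMod p) : 0 ≤ psi L x := by
  unfold psi
  positivity

/-- the decay -/
private lemma SPT_decay {p : ℕ} [Fact p.Prime] (N T : ℕ) (hT : 0 < T) (hp : p ≤ 16 * N * T) (x : ZMod p)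
    (m : ℝ) (hm : 0 < m) (hx : m * N ≤ |(x.valMinAbs : ℝ)|) (hN : 0 < N) :
    psi (2 * T) x ≤ 16 / m ^ 2 := by
  have hp0 : (0 : ℝ) < p := by exact_mod_cast (Fact.out : p.Prime).pos
  have hT0 : (0 : ℝ) < T := by exact_mod_cast hT
  have hN0 : (0 : ℝ) < N := by exact_mod_cast hN
  have hpR : (p : ℝ) ≤ 16 * N * T := by exact_mod_cast hp
  have hd : 0 < |(x.valMinAbs : ℝ)| := lt_of_lt_of_le (mul_pos hm hN0) hx
  set A : ℝ := ‖∑ s ∈ range (2 * T), ps ((s : ZMod p) * x)‖ with hA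
  have hA0 : 0 ≤ A := norm_nonneg _
  have h1 : A * (4 * |(x.valMinAbs : ℝ)| / p) ≤ 2 :=
    (mul_le_mul_of_nonneg_left (SPT_sin x) hA0).trans (SPT_geom (2 * T) x)
  have h2 : A * (4 * (m * N) / p) ≤ 2 := by
    refine le_trans (mul_le_mul_of_nonneg_left ?_ hA0) h1
    exact div_le_div_of_nonneg_right (by linarith) hp0.le
  have h3 : A * m ≤ 8 * T := by
    have h4 : A * (4 * (m * N)) ≤ 2 * p := by
      have h5 := mul_le_mul_of_nonneg_right h2 hp0.le
      have h6 : A * (4 * (m * N) / p) * p = A * (4 * (m * N)) := by field_simp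
      rw [h6] at h5
      exact h5
    have h7 : (A * m) * N ≤ (8 * T) * N := by nlinarith
    exact le_of_mul_le_mul_right h7 hN0
  have h8 : psi (2 * T) x = A ^ 2 / ((2 * T : ℕ) : ℝ) ^ 2 := rfl
  rw [h8, div_le_div_iff₀ (by positivity) (by positivity)]
  push_cast
  have h9 : (A * m) ^ 2 ≤ (8 * T) ^ 2 := pow_le_pow_left₀ (by positivity) h3 2
  nlinarith

/-- the weight of the integer `k` -/
private noncomputable def SPT_w (k : ℤ) : ℝ :=
  if 1 ≤ k then 16 * (1 / (((k.toNat : ℕ) : ℝ)) ^ 2) else if k ≤ -2 then 16 * (1 / ((((-(k + 1)).toNat : ℕ) : ℝ)) ^ 2) else 1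

private lemma SPT_w_nonneg (k : ℤ) : 0 ≤ SPT_w k := by
  unfold SPT_w
  split_ifs <;> positivity

private lemma SPT_bas (A : Finset ℤ) (g : ℤ → ℕ) (hg : Set.InjOn g A) :
    ∑ k ∈ A, 16 * (1 / ((g k : ℕ) : ℝ) ^ 2) ≤ 32 := by
  rw [← mul_sum]
  have h1 : ∑ k ∈ A, (1 : ℝ) / ((g k : ℕ) : ℝ) ^ 2 = ∑ n ∈ A.image g, (1 : ℝ) / (n : ℝ) ^ 2 := by
    rw [sum_image hg]
  rw [h1]
  have h2 : ∑ n ∈ A.image g, (1 : ℝ) / (n : ℝ) ^ 2 ≤ Real.pi ^ 2 / 6 :=
    sum_le_hasSum _ (fun i _ => by positivity) hasSum_zeta_two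
  have h3 : Real.pi ^ 2 / 6 ≤ 2 := by
    have h4 := Real.pi_lt_d2
    have h5 := Real.pi_pos
    nlinarith
  linarith

private lemma SPT_sum_w (S : Finset ℤ) : ∑ k ∈ S, SPT_w k ≤ 66 := by
  classical
  have h1 : ∀ k ∈ S, SPT_w k ≤ (if 1 ≤ k then 16 * (1 / (((k.toNat : ℕ) : ℝ)) ^ 2) else 0) +
      (if k ≤ -2 then 16 * (1 / ((((-(k + 1)).toNat : ℕ) : ℝ)) ^ 2) else 0) +
      (if k ∈ ({0, -1} : Finset ℤ) then 1 else 0) := by
    intro k _
    unfold SPT_w
    by_cases h1 : 1 ≤ k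
    · rw [if_pos h1, if_pos h1]
      have : 0 ≤ (if k ≤ -2 then 16 * (1 / ((((-(k + 1)).toNat : ℕ) : ℝ)) ^ 2) else 0) := by
        split_ifs <;> positivity
      have : (0 : ℝ) ≤ (if k ∈ ({0, -1} : Finset ℤ) then 1 else 0) := by
        split_ifs <;> norm_num
      linarith
    · rw [if_neg h1, if_neg h1]
      by_cases h2 : k ≤ -2
      · rw [if_pos h2, if_pos h2]
        have : (0 : ℝ) ≤ (if k ∈ ({0, -1} : Finset ℤ) then 1 else 0) := by
          split_ifs <;> norm_num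
        linarith
      · rw [if_neg h2, if_neg h2, if_pos]
        · norm_num
        · rw [mem_insert, mem_singleton]
          omega
  refine (sum_le_sum h1).trans ?_
  rw [sum_add_distrib, sum_add_distrib, ← sum_filter, ← sum_filter, ← sum_filter]
  have h2 : ∑ k ∈ S.filter (fun k => 1 ≤ k), 16 * (1 / (((k.toNat : ℕ) : ℝ)) ^ 2) ≤ 32 := by
    refine SPT_bas _ (fun k => k.toNat) ?_
    intro a ha b hb hab
    rw [coe_filter] at ha hb
    have ha1 := ha.2
    have hb1 := hb.2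
    simp only at hab
    omega
  have h3 : ∑ k ∈ S.filter (fun k => k ≤ -2), 16 * (1 / ((((-(k + 1)).toNat : ℕ) : ℝ)) ^ 2) ≤ 32 := by
    refine SPT_bas _ (fun k => (-(k + 1)).toNat) ?_
    intro a ha b hb hab
    rw [coe_filter] at ha hb
    have ha1 := ha.2
    have hb1 := hb.2
    simp only at hab
    omega
  have h4 : ∑ k ∈ S.filter (fun k => k ∈ ({0, -1} : Finset ℤ)), (1 : ℝ) ≤ 2 := by
    rw [sum_const, nsmul_eq_mul, mul_one]
    have h5 : (S.filter (fun k => k ∈ ({0, -1} : Finset ℤ))).card ≤ ({0, -1} : Finset ℤ).card :=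
      card_le_card (fun k hk => (mem_filter.1 hk).2)
    have h6 : ({0, -1} : Finset ℤ).card = 2 := by decide
    rw [h6] at h5
    exact_mod_cast h5
  linarith

/-- `psi` at `x` is at most the weight of the cell of the signed representative -/
private lemma SPT_psi_le {p : ℕ} [Fact p.Prime] (N T : ℕ) (hN : 0 < N) (hT : 0 < T) (hp : p ≤ 16 * N * T)
    (x : ZMod p) : psi (2 * T) x ≤ SPT_w (x.valMinAbs / (N : ℤ)) := by
  have hN' : (0 : ℤ) < N := by exact_mod_cast hN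
  have hN0 : (0 : ℝ) < N := by exact_mod_cast hN
  set z : ℤ := x.valMinAbs with hz
  have hdm : (N : ℤ) * (z / N) + z % N = z := Int.mul_ediv_add_emod z N
  have hm0 : 0 ≤ z % N := Int.emod_nonneg _ hN'.ne'
  have hm1 : z % N < N := Int.emod_lt_of_pos _ hN'
  unfold SPT_w
  by_cases h1 : 1 ≤ z / (N : ℤ)
  · rw [if_pos h1]
    have h2 : (((z / (N : ℤ)).toNat : ℕ) : ℤ) = z / (N : ℤ) := Int.toNat_of_nonneg (by omega)
    have h3 : 0 < (z / (N : ℤ)).toNat := by omega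
    have h4 : (0 : ℝ) < (((z / (N : ℤ)).toNat : ℕ) : ℝ) := by exact_mod_cast h3
    have h5 := SPT_decay N T hT hp x (((z / (N : ℤ)).toNat : ℕ) : ℝ) h4 (by
      have h6 : (((z / (N : ℤ)).toNat : ℕ) : ℤ) * N ≤ |z| := by
        rw [h2]
        refine le_trans ?_ (le_abs_self z)
        nlinarith
      exact_mod_cast h6) hN
    rw [mul_one_div]
    exact h5
  · rw [if_neg h1]
    by_cases h2 : z / (N : ℤ) ≤ -2
    · rw [if_pos h2]
      have h3 : (((-(z / (N : ℤ) + 1)).toNat : ℕ) : ℤ) = -(z / (N : ℤ) + 1) := Int.toNat_of_nonneg (by omega)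
      have h4 : 0 < (-(z / (N : ℤ) + 1)).toNat := by omega
      have h5 : (0 : ℝ) < (((-(z / (N : ℤ) + 1)).toNat : ℕ) : ℝ) := by exact_mod_cast h4
      have h6 := SPT_decay N T hT hp x (((-(z / (N : ℤ) + 1)).toNat : ℕ) : ℝ) h5 (by
        have h7 : (((-(z / (N : ℤ) + 1)).toNat : ℕ) : ℤ) * N ≤ |z| := by
          rw [h3]
          refine le_trans ?_ (neg_le_abs z)
          nlinarith
        exact_mod_cast h7) hN
      rw [mul_one_div]
      exact h6
    · rw [if_neg h2]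
      exact SPT_psi_le_one _ _

theorem SPT : SPT_stmt := by
  intro p _ N T J y hN hT _ hp2 hJ
  classical
  have hpp : p.Prime := Fact.out
  have hp0 : 0 < p := hpp.pos
  have hN' : (0 : ℤ) < N := by exact_mod_cast hN
  have hNZ : NeZero p := ⟨hpp.ne_zero⟩
  have hstep : ∀ j ∈ J, psi (2 * T) (y - (j : ZMod p) * (N : ZMod p)) ≤
      ∑ e ∈ ({-1, 0, 1} : Finset ℤ), SPT_w (((y.val : ℤ) + e * p) / (N : ℤ) - j) := by
    intro j hj
    set x : ZMod p := y - (j : ZMod p) * (N : ZMod p) with hx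
    have h1 := SPT_psi_le N T hN hT hp2 x
    have h2 : ((x.valMinAbs : ℤ) : ZMod p) = (((y.val : ℤ) - j * N : ℤ) : ZMod p) := by
      rw [ZMod.coe_valMinAbs, hx]
      push_cast
      rw [ZMod.natCast_zmod_val]
    have h3 : (p : ℤ) ∣ x.valMinAbs - ((y.val : ℤ) - j * N) := by
      rw [← ZMod.intCast_zmod_eq_zero_iff_dvd, Int.cast_sub, h2, sub_self]
    obtain ⟨e, he⟩ := h3
    have h4 : x.valMinAbs = (y.val : ℤ) + e * p - j * N := by linarith [mul_comm (p : ℤ) e]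
    have h5 : e ∈ ({-1, 0, 1} : Finset ℤ) := by
      have h6 := ZMod.natAbs_valMinAbs_le x
      have h7 : (y.val : ℤ) < p := by exact_mod_cast ZMod.val_lt y
      have h8 : (j : ℤ) * N < p := by exact_mod_cast hJ j hj
      have h9 : (0 : ℤ) ≤ y.val := by positivity
      have h10 : (0 : ℤ) ≤ (j : ℤ) * N := by positivity
      have h11 : (0 : ℤ) < p := by exact_mod_cast hp0
      have h12 : x.valMinAbs ≤ (p : ℤ) / 2 ∧ -((p : ℤ) / 2) ≤ x.valMinAbs := by omega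
      have h13 : e < 2 := by
        by_contra hcon
        have : 2 ≤ e := by omega
        have : 2 * (p : ℤ) ≤ e * p := by nlinarith
        omega
      have h14 : -2 < e := by
        by_contra hcon
        have : e ≤ -2 := by omega
        have : e * p ≤ (-2) * (p : ℤ) := by nlinarith
        omega
      rw [mem_insert, mem_insert, mem_singleton]
      omega
    have h15 : x.valMinAbs / (N : ℤ) = ((y.val : ℤ) + e * p) / (N : ℤ) - j := by
      rw [h4, Int.sub_mul_ediv_right _ _ hN'.ne']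
    rw [h15] at h1
    exact h1.trans (single_le_sum (f := fun e : ℤ => SPT_w (((y.val : ℤ) + e * p) / (N : ℤ) - j))
      (fun i _ => SPT_w_nonneg _) h5)
  refine (sum_le_sum hstep).trans ?_
  rw [sum_comm]
  have hone : ∀ e ∈ ({-1, 0, 1} : Finset ℤ), ∑ j ∈ J, SPT_w (((y.val : ℤ) + e * p) / (N : ℤ) - j) ≤ 66 := by
    intro e _
    have h1 : ∑ j ∈ J, SPT_w (((y.val : ℤ) + e * p) / (N : ℤ) - j) =
        ∑ k ∈ J.image (fun j : ℕ => ((y.val : ℤ) + e * p) / (N : ℤ) - j), SPT_w k := by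
      rw [sum_image]
      intro a _ b _ hab
      simp only at hab
      omega
    rw [h1]
    exact SPT_sum_w _
  refine (sum_le_sum hone).trans ?_
  rw [sum_const, nsmul_eq_mul]
  have h6 : ({-1, 0, 1} : Finset ℤ).card = 3 := by decide
  rw [h6]
  norm_num

end Pool.Agent.OT
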