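import Pool.Agent.helper35.OT.Spec

set_option autoImplicit false

namespace Pool.Agent.helper35.OT

open Finset

theorem UNI : UNI_stmt := by
  intro c0 c1 c2 r x y hR h0 h2 hx hxy hS
  have hy : 0 < y := hx.trans hxy
  have hr1 : r 1 = c0 := by
    have h := hR.2 0
    have h00 := hR.1
    simp [h00] at h
    omega
  have hSx : SM r x := by
    refine Summable.of_nonneg_of_le (fun n => by positivity) (fun n => ?_) hS
    exact mul_le_mul_of_nonneg_left (pow_le_pow_left₀ hx.le hxy.le n) (by positivity)
  have hle : SS r x ≤ SS r y := by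
    unfold SS
    exact hSx.tsum_le_tsum (fun n => mul_le_mul_of_nonneg_left (pow_le_pow_left₀ hx.le hxy.le n) (by positivity)) hS
  have hpos : 0 < SS r y := by
    have h1 : (r 1 : ℝ) * y ^ 1 ≤ SS r y := by
      unfold SS
      exact hS.le_tsum 1 (fun n _ => by positivity)
    have h3 : (1 : ℝ) ≤ r 1 := by
      rw [hr1]
      exact_mod_cast h0
    have h4 : 0 < (r 1 : ℝ) * y ^ 1 := by positivity
    linarith
  have h2' : (1 : ℝ) ≤ c2 := by exact_mod_cast h2
  have h5 : (c1 : ℝ) * x ≤ c1 * y := mul_le_mul_of_nonneg_left hxy.le (by positivity)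
  have h6 : x * SS r x < y * SS r y :=
    calc x * SS r x ≤ x * SS r y := mul_le_mul_of_nonneg_left hle hx.le
      _ < y * SS r y := mul_lt_mul_of_pos_right hxy hpos
  have h7 : (c2 : ℝ) * (x * SS r x) < c2 * (y * SS r y) := mul_lt_mul_of_pos_left h6 (by linarith)
  rw [← mul_assoc, ← mul_assoc] at h7
  linarith

end Pool.Agent.helper35.OT
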