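import Pool.Agent.helper64.OT.SpecW

/-!
# Project OT (MP_f6e9a2_nt), row WM1: the first coefficient
-/

set_option autoImplicit false

namespace Pool.Agent.OT

open Finset Polynomial Pool.Agent.helper82.Weil Pool.Agent.helper82.KL

theorem WM1 : WM1_stmt := by
  classical
  intro p _ χ r u
  have h1 : cA (LM χ r u) 1 = ∑ x : ZMod p, LM χ r u (X - C x) := by
    unfold cA
    symm
    refine Finset.sum_bij (fun x _ => X - C x) ?_ ?_ ?_ ?_
    · intro x _
      rw [mem_Mon]
      exact ⟨monic_X_sub_C x, natDegree_X_sub_C x⟩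
    · intro x _ y _ h
      have := congrArg (eval 0) h
      simpa using this
    · intro g hg
      rw [mem_Mon] at hg
      refine ⟨- g.coeff 0, Finset.mem_univ _, ?_⟩
      have h1 := hg.1.as_sum
      rw [hg.2] at h1
      rw [h1]
      simp
    · intro x _
      rfl
  rw [h1]
  refine Finset.sum_congr rfl fun x _ => ?_
  unfold LM
  rw [natDegree_X_sub_C, nextCoeff_X_sub_C]
  have e1 : (-1 : ZMod p) ^ 1 * (X - C x : (ZMod p)[X]).eval (-r) = x + r := by
    rw [eval_sub, eval_X, eval_C]
    ring
  have e2 : (-1 : ZMod p) ^ 1 * (X - C x : (ZMod p)[X]).eval 0 = x := by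
    rw [eval_sub, eval_X, eval_C]
    ring
  have e3 : -(u * -x) = u * x := by ring
  rw [e1, e2, e3]
  ring

end Pool.Agent.OT
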